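import Pool.Agent.J6H58.MC.Fin

set_option autoImplicit false

/-!
# Short proofs of the consistency of `A + Con_A (2 ^ n)`

We prove the sentence of the question (and more: the lengths `n` are replaced by all `m ≤ n ^ 2`).

**What the question asks for lengths.** The dyadic numeral of `2 ^ n` has `n` digits, so the sentence
`Con_A (2 ^ n)` has more than `n` symbols and cannot occur in a proof with at most `n` symbols. For the
length `n` of the question `Con_{A + Con_A (2 ^ n)} (n)` is therefore true if and only if `Con_A (n)` is,
and one needs only short proofs of this and of `Con_A (n)`. Therefore we consider all lengths `m ≤ n ^ 2`.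
The sentence `Con_A (2 ^ n)` has at most `100 n + C` symbols, so it does occur in proofs with `n ^ 2`
symbols if `n` is large. But in a language without function symbols it begins with `n` nested steps
(`∀ v₀, v₃ + v₃ = v₀ → ∀ v₃, S v₀ = v₃ → …`) which compute the numeral, and a proof with at most `n ^ 2`
symbols is too short to unwind all of them.

**Language, calculus, lengths.** The formulas (`Fml`) are built from `⊥`, `x = y`, the predicate
symbols `Z x` (`x` is zero), `S x y`, `A x y z`, `M x y z` of arithmetic (the function symbols of `Q`
are treated as relation symbols) and further predicate symbols `R i` with four arguments by `→` and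
`∀`. Proofs are lists of formulas in a Hilbert calculus (`IsProof`, `LogK`): the axioms are
`φ → (ψ → φ)`, `(φ → (ψ → χ)) → ((φ → ψ) → (φ → χ))`, `¬¬φ → φ`, `∀ x φ → φ (y)`,
`∀ x (φ → ψ) → (φ → ∀ x ψ)` (`x` not free in `φ`), `x = x`, `x = y → (φ → φ')` (`φ` atomic), and the
rules are modus ponens and generalization. Formulas and proofs are strings over `{0, 1}` (`str`,
`strs`; Polish notation, the variable with the index `i` is the string `1 ⋯ 1 0` with `i` ones), and
`Proves Γ m φ` (`Γ ⊢^m φ`) means that `φ` has a proof from the list `Γ` whose string has at most `m`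
symbols. The axiomatization `A` and the proofs from `A` below contain only the predicate symbols `Z`,
`S`, `A`, `M`, `=` and `R 0, …, R 8` (`InL`). It does not matter that the proofs in `Γ ⊢^m φ` may contain
further symbols: the theorem says that they can be removed.

**Finite consistency statements.** `NumeratesD P`: the arithmetical formula `P (v₂, v₃, v₄)` is such
that Robinson arithmetic proves `P (c, m, d)` if `c` is the code of a list `Γ`, `d` is the code of a
formula `φ` and `Γ ⊢^m φ`, and that it proves `¬ P (c, m, d)` otherwise. Then
`Con_Γ (m) = ¬ P (code Γ, m, code ⊥)` (`conAtD P Γ m`). All numerals are dyadic; in a language without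
function symbols `φ (n)` is written by quantifiers (`instD`: let `x` be zero, and then let `x` be
`2 x + 1` or `2 x + 2`, according to the digits of `n`). The code of a list is the number whose digits
are the string of the list.

**The theorem.** There are formulas `P` as above; for every such `P` the sentences `Con_Γ (m)` are
true in `ℕ` if and only if there is no proof of `⊥` from `Γ` with at most `m` symbols, and there are a
finite set `A` of sentences in the language with `R 0, …, R 8` that contains the axioms of Robinson
arithmetic and is consistent and even true in an expansion of the standard model, a polynomial `p` and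
a constant `C` such that for all `n` the sentence `Con_A (2 ^ n)` has more than `n` and at most
`100 n + C` symbols, and such that for all `n` and all `m ≤ n ^ 2` the sentence
`Con_{A + Con_A (2 ^ n)} (m)` has a proof from `A` with at most `p (n)` symbols in this language.

**The proof.** The axioms of `A` say, besides `Q` (see `MP_8ec908_lc/ShortBoundedProofs`): every `b`
has a `v` beyond it; for all `a`, `b` there is `c` such that what is beyond `c` is beyond `a` and `b`; if `u`
is beyond something then the pairs `u`, `v` with `v` beyond some `b` have a colour; there are no triangles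
with three equal colours; and, by self-reference, `Con_{A + Con_A (2 ^ k)} (x)` holds if `x ≤ k ^ 2` and
not all colours are less than `x`. The symbols `R 6`, `R 7`, `R 8` compute the code of `A + Con_A (2 ^ k)`:
`R 7 (k, x, w)` says that `w` is the number of the string of `Con_A (2 ^ (k + 1))` before the last digit
and `x ≤ (k + 1) ^ 2`, and `R 8` is the concatenation of strings.

*Short proofs.* There are proofs of polynomial length of the sentences `not all colours are less than m`,
and of the sentences `R 7 (k, x, w)` for numbers; the rest is one fixed proof.

*Consistency.* By induction on `m` we prove for all `n` with `m ≤ n ^ 2` that there is no contradiction of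
length `m` in `A + Con_A (2 ^ n)`. The formulas are interpreted in the set of the isomorphism types of
`m`-tuples of numbers and nodes which have heights and are coloured, without triangles of one colour,
with `m` colours `0, …, m - 1`, where `∀ x` refers to all types that agree off `x`. The last axiom is true
in this interpretation since `Con_{A + Con_A (2 ^ k)} (x)` is true for all `x < m`, `x ≤ k ^ 2`, by
induction, and all colours are less than `m`. The truth of the sentence `Con_A (2 ^ n)` is not known at
this point (`A` might have contradictions of length between `m` and `2 ^ n`). But the opening of each of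
the `n` layers of its numeral needs a line of its own which contains all the layers below, so a proof with
at most `n ^ 2` symbols does not open some layer. The proof remains correct if this layer, with all that
is in it, is replaced by a true sentence.
-/

namespace Pool.Agent.Results.MP_f85ba2_lc.ConsistencyOfExtension

open Pool.Agent.TH672 (Fm Str digits)
open Pool.Agent.TH636.BC (Fml IsProof str strs Proves code PrRel Arith robinson)

/-- The expansion of the standard model of arithmetic by the relations `R i`. -/
@[reducible] def expansion (R : ℕ → ℕ → ℕ → ℕ → ℕ → Prop) : Str ℕ where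
  M := ℕ
  ne := ⟨0⟩
  zero x := x = 0
  succ x y := y = x + 1
  add x y z := z = x + y
  mul x y z := z = x * y
  op := R

/-- The formula `φ (2 x + 1)` or `φ (2 x + 2)` (if `b` is `true`); the variables `0` and `1` are
used as auxiliary variables. -/
def digitD (x : ℕ) (b : Bool) (φ : Fml) : Fml :=
  if b then
    .all 0 (.imp (.add x x 0) (.all 1 (.imp (.succ 0 1) (.all x (.imp (.succ 1 x) φ)))))
  else .all 0 (.imp (.add x x 0) (.all x (.imp (.succ 0 x) φ)))

/-- The formula `φ (n)` where the dyadic numeral of `n` is substituted for the variable `x`; in a
language without function symbols this means that the values `0`, `d₁`, `2 d₁ + d₂`, ... are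
computed by quantifiers. -/
def instD (x n : ℕ) (φ : Fml) : Fml := .all x (.imp (.zero x) ((digits n).foldr (digitD x) φ))

/-- The arithmetical formula `P` with the free variables `2`, `3`, `4` numerates in Robinson arithmetic
the relation `PrRel`: `v₂` is the code of a list `Γ` of formulas, `v₄` is the code of a formula `φ`, and
`φ` has a proof from `Γ` of length at most `v₃`. -/
structure NumeratesD (P : Fml) : Prop where
  arith : Arith P
  free : ∀ x, P.Free x → x = 2 ∨ x = 3 ∨ x = 4
  pos : ∀ c m d, PrRel c m d → ∃ k, Proves robinson k (instD 2 c (instD 3 m (instD 4 d P)))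
  neg : ∀ c m d, ¬ PrRel c m d → ∃ k, Proves robinson k (instD 2 c (instD 3 m (instD 4 d P.neg)))

/-- The formula `Con_Γ (x)`, where `x` is the variable `3`: there is no proof of `⊥` from `Γ` whose
length is at most `x`. -/
def conD (P : Fml) (Γ : List Fml) : Fml := instD 2 (code Γ) (instD 4 (code [Fm.bot]) P.neg)

/-- The sentence `Con_Γ (m)`. -/
def conAtD (P : Fml) (Γ : List Fml) (m : ℕ) : Fml := instD 3 m (conD P Γ)

/-- The formula contains no predicate symbols `R i` with `i ≥ 9`. -/
def InL : Fml → Prop
  | .op i _ _ _ _ => i < 9
  | .imp φ ψ => InL φ ∧ InL ψ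
  | .all _ φ => InL φ
  | _ => True

theorem inL_iff (φ : Fml) : InL φ ↔ J6H58.MC.InQ φ := by
  induction φ with
  | imp φ ψ ih1 ih2 => exact and_congr ih1 ih2
  | all x φ ih => exact ih
  | _ => exact Iff.rfl

theorem instD_eq (x n : ℕ) (φ : Fml) : instD x n φ = J6H58.MC.dnum x n φ := rfl

theorem num_iff (P : Fml) : NumeratesD P ↔ J6H58.MC.Num P :=
  ⟨fun h => ⟨h.arith, h.free, h.pos, h.neg⟩, fun h => ⟨h.arith, h.free, h.pos, h.neg⟩⟩

theorem conAtD_eq (P : Fml) (Γ : List Fml) (m : ℕ) : conAtD P Γ m = J6H58.MC.conAtD P Γ m := rfl

theorem long (P : Fml) (Γ : List Fml) (n : ℕ) : n < (str (conAtD P Γ (2 ^ n))).length := by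
  rw [conAtD_eq]
  rcases n with _ | k
  · have e : 1 ≤ (str (J6H58.MC.conAtD P Γ (2 ^ 0))).length := by
      unfold J6H58.MC.conAtD
      rw [J6H58.MC.str_dnum]
      simp [J6H58.MC.pz]
    omega
  · rw [J6H58.MC.str_conAtD]
    have e : (J6H58.MC.pd 3 false).length = 43 := rfl
    have e1 : 4 ≤ (J6H58.MC.pz 3).length := by simp [J6H58.MC.pz]
    simp only [List.length_append, List.length_flatten, List.map_replicate, List.sum_replicate, e,
      smul_eq_mul]
    omega

/-- (1) There are formulas `P` numerating the provability relation. (2) Proofs in the finite language are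
as short as proofs with further predicate symbols. (3) For every such `P`, the finite consistency
statements are true in the standard model if and only if there is no such proof of a contradiction, and
there is a finite consistent axiomatization `A` in the finite language, containing the axioms of Robinson
arithmetic, true in an expansion of the standard model, such that the sentence `Con_A (2 ^ n)` has more
than `n` and at most `100 n + C` symbols, and such that the sentences `Con_{A + Con_A (2 ^ n)} (m)` have
proofs from `A` of length polynomial in `n`, for all `m ≤ n ^ 2`. -/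
theorem result :
    (∃ P : Fml, NumeratesD P) ∧
    (∀ (Γ : List Fml) (m : ℕ) (φ : Fml), (∀ ψ ∈ Γ, InL ψ) → InL φ → Proves Γ m φ →
      ∃ π, IsProof Γ (φ :: π) ∧ (strs (φ :: π)).length ≤ m ∧ ∀ ψ ∈ φ :: π, InL ψ) ∧
    ∀ P : Fml, NumeratesD P →
      (∀ (R : ℕ → ℕ → ℕ → ℕ → ℕ → Prop) (Γ : List Fml) (m : ℕ) (v : ℕ → ℕ),
        (Fm.Sat (expansion R) (conAtD P Γ m) v ↔ ¬ Proves Γ m .bot)) ∧
      ∃ (A : List Fml) (p : Polynomial ℕ) (C : ℕ),
        (∀ φ ∈ robinson, φ ∈ A) ∧ (∀ φ ∈ A, φ.Closed ∧ InL φ) ∧ (∀ m, ¬ Proves A m .bot) ∧
        (∃ R, ∀ φ ∈ A, ∀ v : ℕ → ℕ, Fm.Sat (expansion R) φ v) ∧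
        (∀ n : ℕ, n < (str (conAtD P A (2 ^ n))).length ∧
          (str (conAtD P A (2 ^ n))).length ≤ 100 * n + C) ∧
        ∀ n m : ℕ, m ≤ n ^ 2 → ∃ π,
          IsProof A (conAtD P (conAtD P A (2 ^ n) :: A) m :: π) ∧
          (strs (conAtD P (conAtD P A (2 ^ n) :: A) m :: π)).length ≤ p.eval n ∧
          ∀ φ ∈ conAtD P (conAtD P A (2 ^ n) :: A) m :: π, InL φ := by
  simp only [inL_iff, num_iff]
  obtain ⟨h1, h2⟩ := J6H58.MC.main3
  refine ⟨h1, J6H80.MC.langQ.1, fun P hP => ?_⟩
  obtain ⟨h3, A, p, C, h4, h5, h6, h7, h8, h9⟩ := h2 P hP
  exact ⟨h3, A, p, C, h4, h5, h6, h7, fun n => ⟨long P A n, h8 n⟩, h9⟩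

end Pool.Agent.Results.MP_f85ba2_lc.ConsistencyOfExtension
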